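import Pool.Agent.J4H62.PF.Jobs

/-! Job B1 of project PF: the universe lists. -/

namespace Pool.Agent.J4H99.PF

open Pool.Agent.NPC Pool.Agent.J4H62.PF

theorem mem_allL {α : Type} (A : List α) (m : ℕ) (l : List α) :
    l ∈ allL A m ↔ l.length = m ∧ ∀ a ∈ l, a ∈ A := by
  induction m generalizing l with
  | zero =>
    simp only [allL, List.mem_singleton]
    constructor
    · rintro rfl; simp
    · rintro ⟨h, -⟩; exact List.length_eq_zero_iff.1 h
  | succ m ih =>
    simp only [allL, List.mem_flatMap, List.mem_map]
    constructor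
    · rintro ⟨l', h', a, ha, rfl⟩
      obtain ⟨h1, h2⟩ := (ih l').1 h'
      refine ⟨by simp [h1], ?_⟩
      intro c hc
      rcases List.mem_cons.1 hc with rfl | hc
      · exact ha
      · exact h2 c hc
    · rintro ⟨h1, h2⟩
      cases l with
      | nil => simp at h1
      | cons a l' =>
        refine ⟨l', (ih l').2 ⟨by simpa using h1, fun c hc => h2 c (List.mem_cons_of_mem _ hc)⟩, a,
          h2 a (List.mem_cons_self ..), rfl⟩

theorem sel_map (U : AS) (p : List Bool → Bool) : sel U (U.map p) = U.filter p := by
  induction U with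
  | nil => rfl
  | cons u U ih =>
    have h0 : sel (u :: U) ((u :: U).map p) = if p u then u :: sel U (U.map p) else sel U (U.map p) := by
      simp only [sel, List.map_cons, List.zip_cons_cons, List.filter_cons]
      by_cases h : p u = true
      · simp [h]
      · simp [h]
    rw [h0, ih, List.filter_cons]

theorem t_B1 : S_B1 := by
  refine ⟨fun α A m l => mem_allL A m l, fun s k p => ?_⟩
  rw [PUn, List.mem_map]
  refine ⟨(Un s k).map p, ?_, sel_map _ _⟩
  rw [mem_allL]
  refine ⟨by simp, fun a _ => ?_⟩
  cases a <;> simp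

end Pool.Agent.J4H99.PF
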