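import Pool.Agent.J4H99.PF.B1

/-! Job D0 of project PF: the type of a single vertex. -/

namespace Pool.Agent.J4H99.PF

open Pool.Agent.J4H62.PF

open Classical in
theorem t_D0 : S_D0 := by
  intro adj k S v A
  have hb : base (env S.length k) adj S v = [(Un S.length k).filter fun α =>
      decide (atp adj (Qs (Nn S.length k)) (ztup S v) = α)] := rfl
  rw [hb, List.mem_singleton]
  have hz : Tup S (fun u => u = v) (ztup S v) := by
    refine ⟨fun i hi => ?_, fun i hi => ?_⟩
    · simp [ztup, List.getD_eq_getElem?_getD, List.getElem?_eq_getElem hi]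
    · simp [ztup, List.getD_eq_getElem?_getD, List.getElem?_eq_none hi]
  have huniq : ∀ z, Tup S (fun u => u = v) z → z = ztup S v := by
    intro z h
    funext i
    by_cases hi : i < S.length
    · rw [h.1 i hi, hz.1 i hi]
    · rw [h.2 i (by omega), hz.2 i (by omega)]
  have hext : ∀ z, Tup S (fun u => u = v) z → ∀ α,
      (J4H62.PF.Ext adj (Qs (Nn S.length k)) S (fun u => u = v) (S.length + 2 * k) z α ↔
        atp adj (Qs (Nn S.length k)) (ztup S v) = α) := by
    intro z h α
    constructor
    · rintro ⟨z', t, -, rfl⟩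
      rw [huniq z' t]
    · rintro rfl
      exact ⟨ztup S v, hz, fun i _ => by rw [huniq z h], rfl⟩
  constructor
  · rintro rfl
    refine ⟨ztup S v, hz, _, rfl, fun α => ?_⟩
    rw [decide_eq_true_eq]
    exact (hext _ hz α).symm
  · rintro ⟨z, h, p, rfl, hp⟩
    apply List.filter_congr
    intro α _
    rw [Bool.eq_iff_iff, hp, decide_eq_true_eq]
    exact hext z h α

end Pool.Agent.J4H99.PF
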