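import Pool.Agent.J4H99.PF.B1

/-! Job D1 of project PF: the type of a union of two parts. -/

namespace Pool.Agent.J4H99.PF

open Pool.Agent.J4H62.PF

theorem mem_Qs {N : ℕ} {q : Qu} (h : q ∈ Qs N) : q.2.1 < N ∧ q.2.2 < N := by
  simp only [Qs, List.mem_flatMap, List.mem_map, List.mem_range] at h
  obtain ⟨b, -, i, hi, j, hj, rfl⟩ := h
  exact ⟨hi, hj⟩

theorem comb_atp (adj : ℕ → ℕ → Bool) (b : Bool) (s : ℕ) (D : List Bool) (z z₁ z₂ : ℕ → ℕ)
    (Q : List Qu) (h : ∀ q ∈ Q, ev adj z q = combE b s D q (ev adj z₁ q) (ev adj z₂ q)) :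
    comb b s D Q (atp adj Q z₁) (atp adj Q z₂) = atp adj Q z := by
  induction Q with
  | nil => rfl
  | cons q Q ih =>
    have := ih (fun q' h' => h q' (List.mem_cons_of_mem _ h'))
    simp only [comb, atp, List.map_cons, List.zip_cons_cons] at this ⊢
    rw [this, h q (List.mem_cons_self ..)]

theorem atp_mem (adj : ℕ → ℕ → Bool) (s k : ℕ) (z : ℕ → ℕ) :
    atp adj (Qs (Nn s k)) z ∈ Un s k := by
  rw [Un, mem_allL]
  refine ⟨by simp [atp], fun a _ => ?_⟩
  cases a <;> simp

/-- masks -/
theorem mask_lt {s : ℕ} {Dx Dy : List Bool} {i : ℕ} (h : i < s) :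
    (mask s Dx Dy).getD i false = false := by
  rw [mask, List.getD_append _ _ _ _ (by simpa using h)]
  simp [List.getD_eq_getElem?_getD, List.getElem?_replicate, h]

theorem mask_mid {s : ℕ} {Dx Dy : List Bool} {i : ℕ} (h : s ≤ i) (h' : i < s + Dx.length) :
    (mask s Dx Dy).getD i false = Dx.getD (i - s) false := by
  rw [mask, List.getD_append_right _ _ _ _ (by simpa using h)]
  simp only [List.length_replicate]
  rw [List.getD_append _ _ _ _ (by omega)]

theorem mask_hi {s : ℕ} {Dx Dy : List Bool} {i : ℕ} (h : s + Dx.length ≤ i) :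
    (mask s Dx Dy).getD i false = Dy.getD (i - s - Dx.length) false := by
  rw [mask, List.getD_append_right _ _ _ _ (by simp; omega)]
  simp only [List.length_replicate]
  rw [List.getD_append_right _ _ _ _ (by omega)]

theorem mask_lo {s : ℕ} {Dx Dy Dy' : List Bool} {i : ℕ} (h : i < s + Dx.length) :
    (mask s Dx Dy).getD i false = (mask s Dx Dy').getD i false := by
  by_cases hs : i < s
  · rw [mask_lt hs, mask_lt hs]
  · rw [mask_mid (by omega) h, mask_mid (by omega) h]

/-- the main computation -/
theorem comb_eq (adj : ℕ → ℕ → Bool) (hs : ∀ u v, adj u v = adj v u) (N : ℕ)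
    (S : List ℕ) (b : Bool) (P₁ P₂ : ℕ → Prop)
    (h12 : ∀ u v, P₁ u → P₂ v → adj u v = b) (hne : ∀ u v, P₁ u → P₂ v → u ≠ v)
    (D : List Bool) (hD : ∀ i < S.length, D.getD i false = false) (z z₁ z₂ : ℕ → ℕ)
    (h1 : Tup S P₁ z₁) (h2 : Tup S P₂ z₂)
    (hz : ∀ i < N, z i = if D.getD i false = true then z₂ i else z₁ i) :
    comb b S.length D (Qs N) (atp adj (Qs N) z₁) (atp adj (Qs N) z₂) = atp adj (Qs N) z := by
  apply comb_atp
  intro q hq
  obtain ⟨hi, hj⟩ := mem_Qs hq
  obtain ⟨c, i, j⟩ := q
  simp only at hi hj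
  simp only [ev, combE]
  have zi := hz i hi
  have zj := hz j hj
  have hDi0 := hD i
  have hDj0 := hD j
  generalize D.getD i false = di at *
  generalize D.getD j false = dj at *
  clear hD hz
  by_cases hDi : di = true
  · have his : S.length ≤ i := by
      by_contra hc
      rw [hDi0 (by omega)] at hDi
      exact absurd hDi (by simp)
    rw [if_pos hDi] at zi
    by_cases hDj : dj = true
    · rw [if_pos hDj] at zj
      simp [hDi, hDj, zi, zj]
    · have hDj' : dj = false := by simpa using hDj
      rw [if_neg hDj] at zj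
      by_cases hjs : j < S.length
      · have e : z₁ j = z₂ j := by rw [h1.1 j hjs, h2.1 j hjs]
        simp [hDi, hDj', hjs, zi, zj, e]
      · have p1 := h1.2 j (by omega)
        have p2 := h2.2 i his
        have e1 : adj (z₂ i) (z₁ j) = b := by rw [hs]; exact h12 _ _ p1 p2
        have e2 : z₂ i ≠ z₁ j := (hne _ _ p1 p2).symm
        cases c <;> simp [hDi, hDj', hjs, zi, zj, e1, e2]
  · have hDi' : di = false := by simpa using hDi
    rw [if_neg hDi] at zi
    by_cases hDj : dj = true
    · have hjs : S.length ≤ j := by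
        by_contra hc
        rw [hDj0 (by omega)] at hDj
        exact absurd hDj (by simp)
      rw [if_pos hDj] at zj
      by_cases his : i < S.length
      · have e : z₁ i = z₂ i := by rw [h1.1 i his, h2.1 i his]
        simp [hDi', hDj, his, zi, zj, e]
      · have p1 := h1.2 i (by omega)
        have p2 := h2.2 j hjs
        have e1 : adj (z₁ i) (z₂ j) = b := h12 _ _ p1 p2
        have e2 : z₁ i ≠ z₂ j := hne _ _ p1 p2
        cases c <;> simp [hDi', hDj, his, zi, zj, e1, e2]
    · have hDj' : dj = false := by simpa using hDj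
      rw [if_neg hDj] at zj
      simp [hDi', hDj', zi, zj]

open Classical in
/-- the set of the combinations is the type of the combined tuple -/
theorem inner_eq (adj : ℕ → ℕ → Bool) (hs : ∀ u v, adj u v = adj v u) (k : ℕ)
    (S : List ℕ) (b : Bool) (P₁ P₂ : ℕ → Prop) (hv1 : ∃ v, P₁ v) (hv2 : ∃ v, P₂ v)
    (h12 : ∀ u v, P₁ u → P₂ v → adj u v = b) (hne : ∀ u v, P₁ u → P₂ v → u ≠ v)
    (Dx : List Bool) (hDx : Dx.length = 2 * k) (z z₁ z₂ : ℕ → ℕ)
    (h1 : Tup S P₁ z₁) (h2 : Tup S P₂ z₂)
    (hz : ∀ i < S.length + 2 * k, z i = if (mask S.length Dx []).getD i false = true then z₂ i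
      else z₁ i) (A₁ A₂ : AS)
    (hA1 : IsIn adj (env S.length k) S P₁ (S.length + 2 * k) z₁ A₁)
    (hA2 : IsIn adj (env S.length k) S P₂ (S.length + 2 * k) z₂ A₂) :
    IsIn adj (env S.length k) S (fun v => P₁ v ∨ P₂ v) (S.length + 2 * k) z
      (innerC (env S.length k) b Dx A₁ A₂) := by
  obtain ⟨p1, rfl, hp1⟩ := hA1
  obtain ⟨p2, rfl, hp2⟩ := hA2
  refine ⟨fun α => decide (Ext adj (env S.length k).2.1 S (fun v => P₁ v ∨ P₂ v)
    (S.length + 2 * k) z α), ?_, fun α => by simp⟩
  rw [innerC]
  apply List.filter_congr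
  intro α hα
  rw [Bool.eq_iff_iff]
  simp only [List.any_eq_true, List.mem_filter, decide_eq_true_eq]
  have hN : Nn S.length k = S.length + 2 * k + 4 := rfl
  constructor
  · rintro ⟨α₁, ⟨-, hα1⟩, α₂, ⟨-, hα2⟩, Dy, hDy, he⟩
    obtain ⟨w₁, t1, a1, rfl⟩ := (hp1 α₁).1 hα1
    obtain ⟨w₂, t2, a2, rfl⟩ := (hp2 α₂).1 hα2
    have hlen : (env S.length k).1.length = S.length := by simp [env]
    rw [hlen] at he
    set D := mask S.length Dx Dy with hD
    refine ⟨fun i => if D.getD i false = true then w₂ i else w₁ i, ⟨?_, ?_⟩, ?_, ?_⟩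
    · intro i hi
      have : D.getD i false = false := mask_lt hi
      simp only [this]
      simpa using t1.1 i hi
    · intro i hi
      by_cases h : D.getD i false = true
      · simp only [h, if_true]; exact Or.inr (t2.2 i hi)
      · simp only [h]; exact Or.inl (by simpa using t1.2 i hi)
    · intro i hi
      have hm : D.getD i false = (mask S.length Dx []).getD i false :=
        mask_lo (by rw [hDx]; exact hi)
      simp only
      rw [hz i hi, hm, a1 i hi, a2 i hi]
    · rw [← he]
      symm
      exact comb_eq adj hs (Nn S.length k) S b P₁ P₂ h12 hne D (fun i hi => mask_lt hi) _ w₁ w₂ t1 t2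
        (fun i _ => rfl)
  · rintro ⟨z', t, a, rfl⟩
    obtain ⟨v₁, hv1⟩ := hv1
    obtain ⟨v₂, hv2⟩ := hv2
    set m := S.length + 2 * k with hm
    set Dy : List Bool := (List.range 4).map fun i => decide (P₂ (z' (m + i))) with hDy
    set w₁ : ℕ → ℕ := fun i => if i < m then z₁ i else if P₁ (z' i) then z' i else v₁ with hw1
    set w₂ : ℕ → ℕ := fun i => if i < m then z₂ i else if P₂ (z' i) then z' i else v₂ with hw2
    have t1 : Tup S P₁ w₁ := by
      refine ⟨fun i hi => ?_, fun i hi => ?_⟩
      · simp only [hw1, if_pos (show i < m by omega)]; exact h1.1 i hi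
      · simp only [hw1]
        split_ifs with c1 c2
        · exact h1.2 i hi
        · exact c2
        · exact hv1
    have t2 : Tup S P₂ w₂ := by
      refine ⟨fun i hi => ?_, fun i hi => ?_⟩
      · simp only [hw2, if_pos (show i < m by omega)]; exact h2.1 i hi
      · simp only [hw2]
        split_ifs with c1 c2
        · exact h2.2 i hi
        · exact c2
        · exact hv2
    refine ⟨atp adj (Qs (Nn S.length k)) w₁, ⟨atp_mem adj _ _ _, (hp1 _).2 ⟨w₁, t1, ?_, rfl⟩⟩,
      atp adj (Qs (Nn S.length k)) w₂, ⟨atp_mem adj _ _ _, (hp2 _).2 ⟨w₂, t2, ?_, rfl⟩⟩, Dy, ?_, ?_⟩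
    · intro i hi; simp only [hw1, if_pos hi]
    · intro i hi; simp only [hw2, if_pos hi]
    · have : (env S.length k).2.2.2.2.2 = allL [true, false] 4 := rfl
      rw [this, mem_allL]
      refine ⟨by simp [hDy], fun a _ => ?_⟩
      cases a <;> simp
    · have hlen : (env S.length k).1.length = S.length := by simp [env]
      rw [hlen]
      refine comb_eq adj hs (Nn S.length k) S b P₁ P₂ h12 hne _ (fun i hi => mask_lt hi) z' w₁ w₂ t1
        t2 ?_
      intro i hi
      by_cases him : i < m
      · rw [a i him, hz i him, mask_lo (Dy := Dy) (Dy' := []) (by rw [hDx]; exact him)]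
        simp only [hw1, hw2, if_pos him]
      · have e : (mask S.length Dx Dy).getD i false = decide (P₂ (z' i)) := by
          rw [mask_hi (by rw [hDx]; omega), hDx]
          have hi4 : i - S.length - 2 * k < 4 := by rw [hN] at hi; omega
          rw [hDy, List.getD_eq_getElem?_getD, List.getElem?_map, List.getElem?_range hi4]
          have : m + (i - S.length - 2 * k) = i := by omega
          simp [this]
        rw [e]
        have hP := t.2 i (by omega)
        simp only [hw1, hw2, if_neg him]
        by_cases h : P₂ (z' i)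
        · simp [h]
        · have h' : P₁ (z' i) := hP.resolve_right h
          simp [h, h']

open Classical in
theorem t_D1 : S_D1 := by
  intro adj hs k S b P₁ P₂ hv1 hv2 h12 hne t₁ t₂ ht1 ht2 A
  rw [mergeT]
  simp only [List.mem_filter, List.any_eq_true, decide_eq_true_eq]
  set m := S.length + 2 * k with hm
  constructor
  · rintro ⟨hA, A₁, hA1, A₂, hA2, Dx, hDx, rfl⟩
    obtain ⟨z₁, T1, I1⟩ := (ht1 A₁).1 hA1
    obtain ⟨z₂, T2, I2⟩ := (ht2 A₂).1 hA2
    have hDx' : Dx.length = 2 * k := by
      have : (env S.length k).2.2.2.2.1 = allL [true, false] (2 * k) := rfl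
      rw [this, mem_allL] at hDx
      exact hDx.1
    refine ⟨fun i => if (mask S.length Dx []).getD i false = true then z₂ i else z₁ i, ⟨?_, ?_⟩, ?_⟩
    · intro i hi
      simp only [mask_lt hi]
      simpa using T1.1 i hi
    · intro i hi
      by_cases h : (mask S.length Dx []).getD i false = true
      · simp only [h, if_true]; exact Or.inr (T2.2 i hi)
      · simp only [h]; exact Or.inl (by simpa using T1.2 i hi)
    · exact inner_eq adj hs k S b P₁ P₂ hv1 hv2 h12 hne Dx hDx' _ z₁ z₂ T1 T2 (fun i _ => rfl) A₁ A₂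
        I1 I2
  · rintro ⟨z, T, p, rfl, hp⟩
    refine ⟨t_B1.2 _ _ _, ?_⟩
    obtain ⟨v₁, hv1'⟩ := hv1
    obtain ⟨v₂, hv2'⟩ := hv2
    set Dx : List Bool := (List.range (2 * k)).map fun i => decide (P₂ (z (S.length + i))) with hDx
    set z₁ : ℕ → ℕ := fun i => if i < S.length then z i else if P₁ (z i) then z i else v₁ with hz1
    set z₂ : ℕ → ℕ := fun i => if i < S.length then z i else if P₂ (z i) then z i else v₂ with hz2
    have T1 : Tup S P₁ z₁ := by
      refine ⟨fun i hi => ?_, fun i hi => ?_⟩
      · simp only [hz1, if_pos hi]; exact T.1 i hi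
      · simp only [hz1, if_neg (show ¬ i < S.length by omega)]
        split_ifs with c2
        · exact c2
        · exact hv1'
    have T2 : Tup S P₂ z₂ := by
      refine ⟨fun i hi => ?_, fun i hi => ?_⟩
      · simp only [hz2, if_pos hi]; exact T.1 i hi
      · simp only [hz2, if_neg (show ¬ i < S.length by omega)]
        split_ifs with c2
        · exact c2
        · exact hv2'
    set A₁ : AS := (Un S.length k).filter fun α =>
      decide (Ext adj (Qs (Nn S.length k)) S P₁ m z₁ α) with hA1
    set A₂ : AS := (Un S.length k).filter fun α =>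
      decide (Ext adj (Qs (Nn S.length k)) S P₂ m z₂ α) with hA2
    have I1 : IsIn adj (env S.length k) S P₁ m z₁ A₁ := ⟨_, rfl, fun α => by
      rw [decide_eq_true_eq]; rfl⟩
    have I2 : IsIn adj (env S.length k) S P₂ m z₂ A₂ := ⟨_, rfl, fun α => by
      rw [decide_eq_true_eq]; rfl⟩
    have hlen : Dx.length = 2 * k := by simp [hDx]
    have key := inner_eq adj hs k S b P₁ P₂ ⟨v₁, hv1'⟩ ⟨v₂, hv2'⟩ h12 hne Dx hlen z z₁ z₂ T1 T2
      (by
        intro i hi
        by_cases his : i < S.length
        · rw [mask_lt his]; simp [hz1, his]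
        · have e : (mask S.length Dx []).getD i false = decide (P₂ (z i)) := by
            rw [mask_mid (by omega) (by rw [hlen]; omega)]
            have hi' : i - S.length < 2 * k := by omega
            rw [hDx, List.getD_eq_getElem?_getD, List.getElem?_map, List.getElem?_range hi']
            have : S.length + (i - S.length) = i := by omega
            simp [this]
          rw [e]
          have hP := T.2 i (by omega)
          simp only [hz1, hz2, if_neg his]
          by_cases h : P₂ (z i)
          · simp [h]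
          · have h' : P₁ (z i) := hP.resolve_right h
            simp [h, h']) A₁ A₂ I1 I2
    refine ⟨A₁, (ht1 A₁).2 ⟨z₁, T1, I1⟩, A₂, (ht2 A₂).2 ⟨z₂, T2, I2⟩, Dx, ?_, ?_⟩
    · have : (env S.length k).2.2.2.2.1 = allL [true, false] (2 * k) := rfl
      rw [this, mem_allL]
      refine ⟨hlen, fun a _ => ?_⟩
      cases a <;> simp
    · obtain ⟨p', he, hp'⟩ := key
      rw [he]
      have : p' = p := by
        funext α
        rw [Bool.eq_iff_iff, hp', hp]
      rw [this]

end Pool.Agent.J4H99.PF
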