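import Pool.Agent.J4H99.PF.D0
import Pool.Agent.J4H99.PF.D1

/-! Job D2 of project PF: correctness of the dynamic program. -/

namespace Pool.Agent.J4H99.PF

open Pool.Agent.J4H62.PF

/-- the loop invariant -/
structure Inv (adj : ℕ → ℕ → Bool) (E : Env) (S : List ℕ) (n m : ℕ) (cs : List Cell)
    (P : ℕ → ℕ → Prop) : Prop where
  nd : (cs.map Prod.fst).Nodup
  ne : cs ≠ []
  mem : ∀ c ∈ cs, P c.1 c.1
  sub : ∀ c ∈ cs, ∀ u, P c.1 u → u ≤ n ∧ u ∉ S
  cov : ∀ u, u ≤ n → u ∉ S → ∃ c ∈ cs, P c.1 u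
  dis : ∀ c ∈ cs, ∀ c' ∈ cs, c.1 ≠ c'.1 → ∀ u, P c.1 u → ¬ P c'.1 u
  mod : ∀ c ∈ cs, ∀ c' ∈ cs, c.1 ≠ c'.1 → ∀ u w, P c.1 u → P c'.1 w → adj u w = adj c.1 c'.1
  ty : ∀ c ∈ cs, IsTy adj E S (P c.1) m c.2

theorem Inv.start (adj : ℕ → ℕ → Bool) (k n : ℕ) (S : List ℕ) (hn : n ∉ S) :
    Inv adj (env S.length k) S n (S.length + 2 * k) (cells₀ (env S.length k) adj S n)
      (fun v u => u = v) := by
  have hm : ∀ c, c ∈ cells₀ (env S.length k) adj S n ↔
      c.1 ≤ n ∧ c.1 ∉ S ∧ c.2 = base (env S.length k) adj S c.1 := by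
    intro c
    simp only [cells₀, List.mem_map, List.mem_filter, List.mem_range]
    constructor
    · rintro ⟨v, ⟨h1, h2⟩, rfl⟩
      exact ⟨by simpa using Nat.lt_succ_iff.1 h1, by simpa using h2, rfl⟩
    · rintro ⟨h1, h2, h3⟩
      exact ⟨c.1, ⟨Nat.lt_succ_iff.2 h1, by simpa using h2⟩, by rw [← h3]⟩
  refine ⟨?_, ?_, fun _ _ => rfl, ?_, ?_, ?_, ?_, ?_⟩
  · rw [cells₀, List.map_map]
    have : (Prod.fst ∘ fun v => ((v, base (env S.length k) adj S v) : Cell)) = id := rfl
    rw [this, List.map_id]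
    exact List.Nodup.filter _ List.nodup_range
  · have : ((n, base (env S.length k) adj S n) : Cell) ∈ cells₀ (env S.length k) adj S n :=
      (hm _).2 ⟨le_rfl, hn, rfl⟩
    exact List.ne_nil_of_mem this
  · rintro c hc u rfl
    exact ⟨((hm c).1 hc).1, ((hm c).1 hc).2.1⟩
  · intro u h1 h2
    exact ⟨(u, base (env S.length k) adj S u), (hm _).2 ⟨h1, h2, rfl⟩, rfl⟩
  · rintro c _ c' _ hne u rfl h
    exact hne h
  · rintro c _ c' _ _ u w rfl rfl
    rfl
  · intro c hc
    rw [((hm c).1 hc).2.2]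
    exact t_D0 adj k S c.1

theorem Inv.step (hT : S_T) (adj : ℕ → ℕ → Bool) (hs : ∀ u v, adj u v = adj v u)
    (hi : ∀ v, adj v v = false) (k n : ℕ) (S : List ℕ)
    (hP : ∀ a b c d, a ≤ n → b ≤ n → c ≤ n → d ≤ n → a ∉ S → b ∉ S → c ∉ S → d ∉ S →
      isP4 adj a b c d = false) (cs : List Cell) (P : ℕ → ℕ → Prop)
    (h : Inv adj (env S.length k) S n (S.length + 2 * k) cs P) (h2 : 2 ≤ cs.length) :
    ∃ P', Inv adj (env S.length k) S n (S.length + 2 * k) (stepC (env S.length k) adj cs) P' ∧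
      (stepC (env S.length k) adj cs).length < cs.length := by
  classical
  -- there are twins
  have hne : twinPairs adj cs ≠ [] := by
    have hcard : ((cs.map Prod.fst).toFinset).card = cs.length := by
      rw [List.toFinset_card_of_nodup h.nd, List.length_map]
    have hbd : ∀ a ∈ (cs.map Prod.fst).toFinset, a ≤ n ∧ a ∉ S := by
      intro a ha
      rw [List.mem_toFinset, List.mem_map] at ha
      obtain ⟨c, hc, rfl⟩ := ha
      exact h.sub c hc _ (h.mem c hc)
    obtain ⟨u, hu, v, hv, huv, hw⟩ := hT (fun a b => adj a b = true)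
      (fun a b hab => by rw [hs]; exact hab) (fun a ha => by rw [hi] at ha; exact absurd ha (by simp))
      (cs.map Prod.fst).toFinset (by rw [hcard]; exact h2)
      (by
        intro a ha b hb c hc d hd hpat
        have := hP a b c d (hbd a ha).1 (hbd b hb).1 (hbd c hc).1 (hbd d hd).1 (hbd a ha).2
          (hbd b hb).2 (hbd c hc).2 (hbd d hd).2
        obtain ⟨q1, q2, q3, q4, q5, q6⟩ := hpat
        simp only [Bool.not_eq_true] at q4 q5 q6
        simp [isP4, q1, q2, q3, q4, q5, q6] at this)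
    rw [List.mem_toFinset, List.mem_map] at hu hv
    obtain ⟨c₁, hc₁, rfl⟩ := hu
    obtain ⟨c₂, hc₂, rfl⟩ := hv
    have : (c₁, c₂) ∈ twinPairs adj cs := by
      simp only [twinPairs, List.mem_flatMap, List.mem_map, List.mem_filter]
      refine ⟨c₁, hc₁, c₂, ⟨hc₂, ?_⟩, rfl⟩
      simp only [twinB, Bool.and_eq_true, Bool.not_eq_true', decide_eq_false_iff_not,
        List.all_eq_true, Bool.or_eq_true, decide_eq_true_eq]
      refine ⟨huv, fun c hc => ?_⟩
      by_cases e1 : c.1 = c₁.1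
      · exact Or.inl e1
      · by_cases e2 : c.1 = c₂.1
        · exact Or.inr (Or.inl e2)
        · refine Or.inr (Or.inr ?_)
          rw [Bool.eq_iff_iff]
          exact hw c.1 (by rw [List.mem_toFinset, List.mem_map]; exact ⟨c, hc, rfl⟩) e1 e2
    exact List.ne_nil_of_mem this
  obtain ⟨c, hc⟩ : ∃ c, (twinPairs adj cs).head? = some c := by
    cases hh : twinPairs adj cs with
    | nil => exact absurd hh hne
    | cons a l => exact ⟨a, rfl⟩
  have hcm : c ∈ twinPairs adj cs := List.mem_of_mem_head? hc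
  obtain ⟨c₁, c₂⟩ := c
  simp only [twinPairs, List.mem_flatMap, List.mem_map, List.mem_filter] at hcm
  obtain ⟨d₁, hd₁, d₂, ⟨hd₂, htw⟩, he⟩ := hcm
  obtain ⟨rfl, rfl⟩ : d₁ = c₁ ∧ d₂ = c₂ := by simpa using he
  simp only [twinB, Bool.and_eq_true, Bool.not_eq_true', decide_eq_false_iff_not,
    List.all_eq_true, Bool.or_eq_true, decide_eq_true_eq] at htw
  obtain ⟨hne12, htw⟩ := htw
  have hstep : stepC (env S.length k) adj cs = (d₁.1, mergeT (env S.length k) (adj d₁.1 d₂.1) d₁.2 d₂.2) ::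
      cs.filter fun c' => !(decide (c'.1 = d₁.1)) && !(decide (c'.1 = d₂.1)) := by
    rw [stepC, hc]
  rw [hstep]
  set q : Cell → Bool := fun c' => !(decide (c'.1 = d₁.1)) && !(decide (c'.1 = d₂.1)) with hq
  have hmf : ∀ c, c ∈ cs.filter q ↔ c ∈ cs ∧ c.1 ≠ d₁.1 ∧ c.1 ≠ d₂.1 := by
    intro c
    rw [List.mem_filter]
    simp [hq]
  refine ⟨fun x u => if x = d₁.1 then P d₁.1 u ∨ P d₂.1 u else P x u,
    ⟨?_, List.cons_ne_nil _ _, ?_, ?_, ?_, ?_, ?_, ?_⟩, ?_⟩
  · rw [List.map_cons, List.nodup_cons]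
    refine ⟨?_, (List.filter_sublist.map Prod.fst).nodup h.nd⟩
    rw [List.mem_map]
    rintro ⟨c, hc, he⟩
    exact ((hmf c).1 hc).2.1 he
  · intro c hc
    rcases List.mem_cons.1 hc with rfl | hc
    · simp only [if_true]; exact Or.inl (h.mem d₁ hd₁)
    · obtain ⟨hc0, hc1, hc2⟩ := (hmf c).1 hc
      simp only [if_neg hc1]; exact h.mem c hc0
  · intro c hc u hu
    rcases List.mem_cons.1 hc with rfl | hc
    · simp only [if_true] at hu
      rcases hu with hu | hu
      · exact h.sub d₁ hd₁ u hu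
      · exact h.sub d₂ hd₂ u hu
    · obtain ⟨hc0, hc1, hc2⟩ := (hmf c).1 hc
      simp only [if_neg hc1] at hu
      exact h.sub c hc0 u hu
  · intro u h1 h3
    obtain ⟨c, hc, hcu⟩ := h.cov u h1 h3
    by_cases e1 : c.1 = d₁.1
    · refine ⟨_, List.mem_cons_self .., ?_⟩
      simp only [if_true]
      left; rw [← e1]; exact hcu
    · by_cases e2 : c.1 = d₂.1
      · refine ⟨_, List.mem_cons_self .., ?_⟩
        simp only [if_true]
        right; rw [← e2]; exact hcu
      · refine ⟨c, List.mem_cons_of_mem _ ((hmf c).2 ⟨hc, e1, e2⟩), ?_⟩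
        simp only [if_neg e1]; exact hcu
  · intro c hc c' hc' hcc u hu hu'
    rcases List.mem_cons.1 hc with rfl | hc
    · rcases List.mem_cons.1 hc' with rfl | hc'
      · exact hcc rfl
      · obtain ⟨hc0, hc1, hc2⟩ := (hmf c').1 hc'
        simp only [if_neg hc1] at hu'
        simp only [if_true] at hu
        rcases hu with hu | hu
        · exact h.dis d₁ hd₁ c' hc0 (Ne.symm hc1) u hu hu'
        · exact h.dis d₂ hd₂ c' hc0 (Ne.symm hc2) u hu hu'
    · obtain ⟨hc0, hc1, hc2⟩ := (hmf c).1 hc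
      simp only [if_neg hc1] at hu
      rcases List.mem_cons.1 hc' with rfl | hc'
      · simp only [if_true] at hu'
        rcases hu' with hu' | hu'
        · exact h.dis c hc0 d₁ hd₁ hc1 u hu hu'
        · exact h.dis c hc0 d₂ hd₂ hc2 u hu hu'
      · obtain ⟨hc0', hc1', hc2'⟩ := (hmf c').1 hc'
        simp only [if_neg hc1'] at hu'
        exact h.dis c hc0 c' hc0' hcc u hu hu'
  · -- modules
    have key : ∀ c ∈ cs, c.1 ≠ d₁.1 → c.1 ≠ d₂.1 → ∀ u w, (P d₁.1 u ∨ P d₂.1 u) → P c.1 w →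
        adj u w = adj d₁.1 c.1 := by
      intro c hc e1 e2 u w hu hw
      rcases hu with hu | hu
      · exact h.mod d₁ hd₁ c hc (Ne.symm e1) u w hu hw
      · rw [h.mod d₂ hd₂ c hc (Ne.symm e2) u w hu hw, hs d₂.1 c.1, hs d₁.1 c.1]
        rcases htw c hc with e | e | e
        · exact absurd e e1
        · exact absurd e e2
        · exact e.symm
    intro c hc c' hc' hcc u w hu hw
    rcases List.mem_cons.1 hc with rfl | hc
    · rcases List.mem_cons.1 hc' with rfl | hc'
      · exact absurd rfl hcc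
      · obtain ⟨hc0, hc1, hc2⟩ := (hmf c').1 hc'
        simp only [if_neg hc1] at hw
        simp only [if_true] at hu
        exact key c' hc0 hc1 hc2 u w hu hw
    · obtain ⟨hc0, hc1, hc2⟩ := (hmf c).1 hc
      simp only [if_neg hc1] at hu
      rcases List.mem_cons.1 hc' with rfl | hc'
      · simp only [if_true] at hw
        rw [hs u w, hs c.1 _]
        exact key c hc0 hc1 hc2 w u hw hu
      · obtain ⟨hc0', hc1', hc2'⟩ := (hmf c').1 hc'
        simp only [if_neg hc1'] at hw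
        exact h.mod c hc0 c' hc0' hcc u w hu hw
  · intro c hc
    rcases List.mem_cons.1 hc with rfl | hc
    · simp only [if_true]
      exact t_D1 adj hs k S (adj d₁.1 d₂.1) (P d₁.1) (P d₂.1) ⟨_, h.mem d₁ hd₁⟩ ⟨_, h.mem d₂ hd₂⟩
        (fun u v hu hv => h.mod d₁ hd₁ d₂ hd₂ hne12 u v hu hv)
        (fun u v hu hv huv => h.dis d₁ hd₁ d₂ hd₂ hne12 u hu (by rw [huv]; exact hv))
        d₁.2 d₂.2 (h.ty d₁ hd₁) (h.ty d₂ hd₂)
    · obtain ⟨hc0, hc1, hc2⟩ := (hmf c).1 hc
      simp only [if_neg hc1]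
      exact h.ty c hc0
  · have hnd : cs.Nodup := List.Nodup.of_map _ h.nd
    have h12 : d₁ ≠ d₂ := fun e => hne12 (by rw [e])
    have hn : (d₁ :: d₂ :: cs.filter q).Nodup := by
      rw [List.nodup_cons, List.nodup_cons]
      refine ⟨?_, ?_, hnd.filter _⟩
      · intro hm
        rcases List.mem_cons.1 hm with e | hm
        · exact h12 e
        · exact ((hmf _).1 hm).2.1 rfl
      · intro hm
        exact ((hmf _).1 hm).2.2 rfl
    have hsub : (d₁ :: d₂ :: cs.filter q) ⊆ cs := by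
      intro x hx
      rcases List.mem_cons.1 hx with rfl | hx
      · exact hd₁
      · rcases List.mem_cons.1 hx with rfl | hx
        · exact hd₂
        · exact ((hmf _).1 hx).1
    have := (List.subperm_of_subset hn hsub).length_le
    simp only [List.length_cons] at this ⊢
    omega

theorem step_one (adj : ℕ → ℕ → Bool) (E : Env) (cs : List Cell) (h : cs.length ≤ 1) :
    stepC E adj cs = cs := by
  have : twinPairs adj cs = [] := by
    rw [List.eq_nil_iff_forall_not_mem]
    rintro ⟨c₁, c₂⟩ hc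
    simp only [twinPairs, List.mem_flatMap, List.mem_map, List.mem_filter] at hc
    obtain ⟨d₁, hd₁, d₂, ⟨hd₂, htw⟩, he⟩ := hc
    have : d₁ = d₂ := by
      match cs, h with
      | [], _ => simp at hd₁
      | [a], _ =>
        rw [List.mem_singleton] at hd₁ hd₂
        rw [hd₁, hd₂]
    subst this
    simp [twinB] at htw
  rw [stepC, this]
  rfl

theorem Inv.iter (hT : S_T) (adj : ℕ → ℕ → Bool) (hs : ∀ u v, adj u v = adj v u)
    (hi : ∀ v, adj v v = false) (k n : ℕ) (S : List ℕ)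
    (hP : ∀ a b c d, a ≤ n → b ≤ n → c ≤ n → d ≤ n → a ∉ S → b ∉ S → c ∉ S → d ∉ S →
      isP4 adj a b c d = false) (t : ℕ) : ∀ (cs : List Cell) (P : ℕ → ℕ → Prop),
    Inv adj (env S.length k) S n (S.length + 2 * k) cs P → cs.length ≤ t + 1 →
    ∃ P', Inv adj (env S.length k) S n (S.length + 2 * k) ((stepC (env S.length k) adj)^[t] cs) P' ∧
      ((stepC (env S.length k) adj)^[t] cs).length ≤ 1 := by
  induction t with
  | zero => exact fun cs P h hl => ⟨P, h, by simpa using hl⟩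
  | succ t ih =>
    intro cs P h hl
    rw [Function.iterate_succ_apply]
    by_cases h1 : cs.length ≤ 1
    · rw [step_one adj _ cs h1]
      exact ih cs P h (by omega)
    · obtain ⟨P', h', hlt⟩ := Inv.step hT adj hs hi k n S hP cs P h (by omega)
      exact ih _ P' h' (by omega)

theorem t_D2 (hT : S_T) : S_D2 := by
  intro adj hs hi k n S hn hP R FS
  obtain ⟨P, h, hl⟩ := Inv.iter hT adj hs hi k n S hP (n + 1) _ _ (Inv.start adj k n S hn) (by
    rw [cells₀, List.length_map]
    refine (List.length_filter_le _ _).trans ?_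
    simp)
  have hcE : (stepC (env S.length k) adj)^[n + 1] (cells₀ (env S.length k) adj S n) =
    cellsE (env S.length k) adj S n := rfl
  rw [hcE] at h hl
  obtain ⟨c, hc⟩ : ∃ c, cellsE (env S.length k) adj S n = [c] := by
    have hne := h.ne
    match hcs : cellsE (env S.length k) adj S n, hl with
    | [], _ => exact absurd hcs hne
    | [a], _ => exact ⟨a, rfl⟩
  have hPc : P c.1 = fun v => v ≤ n ∧ v ∉ S := by
    funext u
    apply propext
    constructor
    · exact h.sub c (by rw [hc]; exact List.mem_singleton_self _) u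
    · rintro ⟨h1, h2⟩
      obtain ⟨c', hc', hu⟩ := h.cov u h1 h2
      rw [hc, List.mem_singleton] at hc'
      rw [← hc']; exact hu
  have hty := h.ty c (by rw [hc]; exact List.mem_singleton_self _)
  rw [hPc] at hty
  rw [fin, hc]
  simp only [List.any_cons, List.any_nil, Bool.or_false, List.any_eq_true, List.all_eq_true]
  constructor
  · rintro ⟨A, hA, F, hF, hall⟩
    obtain ⟨z, T, p, rfl, hp⟩ := (hty A).1 hA
    refine ⟨z, T, F, hF, fun z' T' ha => ?_⟩
    refine hall _ ?_
    rw [List.mem_filter]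
    exact ⟨atp_mem adj _ _ _, (hp _).2 ⟨z', T', ha, rfl⟩⟩
  · rintro ⟨z, T, F, hF, hall⟩
    classical
    refine ⟨(Un S.length k).filter fun α => decide (J4H62.PF.Ext adj (Qs (Nn S.length k)) S
      (fun v => v ≤ n ∧ v ∉ S) (S.length + 2 * k) z α), (hty _).2 ⟨z, T, _, rfl, fun α => ?_⟩, F, hF,
      fun α hα => ?_⟩
    · rw [decide_eq_true_eq]; rfl
    · rw [List.mem_filter, decide_eq_true_eq] at hα
      obtain ⟨z', T', ha, rfl⟩ := hα.2
      exact hall z' T' ha

end Pool.Agent.J4H99.PF
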