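import Pool.Agent.J4H62.PF.Jobs

/-! Job P1a of project PF: the merge of two types is computable in polynomial time. -/

namespace Pool.Agent.J4H99.PF

open Pool.Agent.NPC Pool.Agent.J4H62.PF

variable {X : Type} [TEnc X]

theorem poly_combE {b : X → Bool} {s : X → ℕ} {D : X → List Bool} {q : X → Qu} {e₁ e₂ : X → Bool}
    (hb : Poly b) (hs : Poly s) (hD : Poly D) (hq : Poly q) (h₁ : Poly e₁) (h₂ : Poly e₂) :
    Poly (fun a => combE (b a) (s a) (D a) (q a) (e₁ a) (e₂ a)) := by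
  have hi : Poly (fun a => (q a).2.1) := Poly.fst (Poly.snd hq)
  have hj : Poly (fun a => (q a).2.2) := Poly.snd (Poly.snd hq)
  have g1 : Poly (fun a => (D a).getD (q a).2.1 false) := Poly.getD hD hi (NPC.Poly.const false)
  have g2 : Poly (fun a => (D a).getD (q a).2.2 false) := Poly.getD hD hj (NPC.Poly.const false)
  unfold combE
  exact Poly.cond (Poly.and (Poly.not g1) (Poly.not g2)) h₁
    (Poly.cond (Poly.and (Poly.or g1 (Poly.decide_lt hi hs)) (Poly.or g2 (Poly.decide_lt hj hs))) h₂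
      (Poly.and (Poly.fst hq) hb))

theorem poly_comb {b : X → Bool} {s : X → ℕ} {D : X → List Bool} {Q : X → List Qu}
    {e₁ e₂ : X → List Bool}
    (hb : Poly b) (hs : Poly s) (hD : Poly D) (hQ : Poly Q) (h₁ : Poly e₁) (h₂ : Poly e₂) :
    Poly (fun a => comb (b a) (s a) (D a) (Q a) (e₁ a) (e₂ a)) := by
  unfold comb
  have c : Poly (fun y : X × (Qu × Bool × Bool) => y.1) := Poly.fst Poly.id
  have c1 : Poly (fun y : X × (Qu × Bool × Bool) => y.2.1) := Poly.fst (Poly.snd Poly.id)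
  have c2 : Poly (fun y : X × (Qu × Bool × Bool) => y.2.2.1) :=
    Poly.fst (Poly.snd (Poly.snd Poly.id))
  have c3 : Poly (fun y : X × (Qu × Bool × Bool) => y.2.2.2) :=
    Poly.snd (Poly.snd (Poly.snd Poly.id))
  exact NPC.Poly.map (l := fun a => (Q a).zip ((e₁ a).zip (e₂ a)))
    (F := fun a t => combE (b a) (s a) (D a) t.1 t.2.1 t.2.2) (Poly.zip hQ (Poly.zip h₁ h₂))
    (poly_combE (hb.comp c) (hs.comp c) (hD.comp c) c1 c2 c3)

theorem poly_mask {s : X → List Unit} {D E : X → List Bool} (hs : Poly s) (hD : Poly D)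
    (hE : Poly E) : Poly (fun a => mask (s a).length (D a) (E a)) := by
  refine (Poly.append (NPC.Poly.map (l := s) (F := fun _ _ => false) hs (NPC.Poly.const _))
    (Poly.append hD hE)).congr ?_
  intro a
  unfold mask
  congr 1
  rw [List.map_const']

theorem poly_innerC {E : X → Env} {b : X → Bool} {D : X → List Bool} {A₁ A₂ : X → AS}
    (hE : Poly E) (hb : Poly b) (hD : Poly D) (h₁ : Poly A₁) (h₂ : Poly A₂) :
    Poly (fun a => innerC (E a) (b a) (D a) (A₁ a) (A₂ a)) := by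
  unfold innerC
  have E1 : Poly (fun a => (E a).1) := Poly.fst hE
  have E2 : Poly (fun a => (E a).2.1) := Poly.fst (Poly.snd hE)
  have E3 : Poly (fun a => (E a).2.2.1) := Poly.fst (Poly.snd (Poly.snd hE))
  have E6 : Poly (fun a => (E a).2.2.2.2.2) :=
    Poly.snd (Poly.snd (Poly.snd (Poly.snd (Poly.snd hE))))
  refine Poly.filter (l := fun a => (E a).2.2.1) (p := fun a α => (A₁ a).any fun α₁ =>
    (A₂ a).any fun α₂ => (E a).2.2.2.2.2.any fun Dy =>
    decide (comb (b a) (E a).1.length (mask (E a).1.length (D a) Dy) (E a).2.1 α₁ α₂ = α)) E3 ?_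
  have c1 : Poly (fun y : X × List Bool => y.1) := Poly.fst Poly.id
  refine Poly.any (l := fun y : X × List Bool => A₁ y.1) (p := fun y α₁ => (A₂ y.1).any fun α₂ =>
    (E y.1).2.2.2.2.2.any fun Dy => decide (comb (b y.1) (E y.1).1.length
      (mask (E y.1).1.length (D y.1) Dy) (E y.1).2.1 α₁ α₂ = y.2)) (h₁.comp c1) ?_
  have c2 : Poly (fun y : (X × List Bool) × List Bool => y.1.1) := Poly.fst (Poly.fst Poly.id)
  refine Poly.any (l := fun y : (X × List Bool) × List Bool => A₂ y.1.1) (p := fun y α₂ =>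
    (E y.1.1).2.2.2.2.2.any fun Dy => decide (comb (b y.1.1) (E y.1.1).1.length
      (mask (E y.1.1).1.length (D y.1.1) Dy) (E y.1.1).2.1 y.2 α₂ = y.1.2)) (h₂.comp c2) ?_
  have c3 : Poly (fun y : ((X × List Bool) × List Bool) × List Bool => y.1.1.1) :=
    Poly.fst (Poly.fst (Poly.fst Poly.id))
  refine Poly.any (l := fun y : ((X × List Bool) × List Bool) × List Bool =>
    (E y.1.1.1).2.2.2.2.2) (p := fun y Dy => decide (comb (b y.1.1.1) (E y.1.1.1).1.length
      (mask (E y.1.1.1).1.length (D y.1.1.1) Dy) (E y.1.1.1).2.1 y.1.2 y.2 = y.1.1.2))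
      (E6.comp c3) ?_
  have c4 : Poly (fun y : (((X × List Bool) × List Bool) × List Bool) × List Bool => y.1.1.1.1) :=
    Poly.fst (Poly.fst (Poly.fst (Poly.fst Poly.id)))
  have d1 : Poly (fun y : (((X × List Bool) × List Bool) × List Bool) × List Bool => y.1.1.1.2) :=
    Poly.snd (Poly.fst (Poly.fst (Poly.fst Poly.id)))
  have d2 : Poly (fun y : (((X × List Bool) × List Bool) × List Bool) × List Bool => y.1.1.2) :=
    Poly.snd (Poly.fst (Poly.fst Poly.id))
  have d3 : Poly (fun y : (((X × List Bool) × List Bool) × List Bool) × List Bool => y.1.2) :=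
    Poly.snd (Poly.fst Poly.id)
  have d4 : Poly (fun y : (((X × List Bool) × List Bool) × List Bool) × List Bool => y.2) :=
    Poly.snd Poly.id
  exact Poly.decide_eq (poly_comb (hb.comp c4) (Poly.length (E1.comp c4))
    (poly_mask (E1.comp c4) (hD.comp c4) d4) (E2.comp c4) d2 d3) d1

theorem poly_mergeT {E : X → Env} {b : X → Bool} {t₁ t₂ : X → List AS}
    (hE : Poly E) (hb : Poly b) (h₁ : Poly t₁) (h₂ : Poly t₂) :
    Poly (fun a => mergeT (E a) (b a) (t₁ a) (t₂ a)) := by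
  unfold mergeT
  have E4 : Poly (fun a => (E a).2.2.2.1) := Poly.fst (Poly.snd (Poly.snd (Poly.snd hE)))
  have E5 : Poly (fun a => (E a).2.2.2.2.1) :=
    Poly.fst (Poly.snd (Poly.snd (Poly.snd (Poly.snd hE))))
  refine Poly.filter (l := fun a => (E a).2.2.2.1) (p := fun a A => (t₁ a).any fun A₁ =>
    (t₂ a).any fun A₂ => (E a).2.2.2.2.1.any fun Dx =>
    decide (innerC (E a) (b a) Dx A₁ A₂ = A)) E4 ?_
  have c1 : Poly (fun y : X × AS => y.1) := Poly.fst Poly.id
  refine Poly.any (l := fun y : X × AS => t₁ y.1) (p := fun y A₁ => (t₂ y.1).any fun A₂ =>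
    (E y.1).2.2.2.2.1.any fun Dx => decide (innerC (E y.1) (b y.1) Dx A₁ A₂ = y.2)) (h₁.comp c1) ?_
  have c2 : Poly (fun y : (X × AS) × AS => y.1.1) := Poly.fst (Poly.fst Poly.id)
  refine Poly.any (l := fun y : (X × AS) × AS => t₂ y.1.1) (p := fun y A₂ =>
    (E y.1.1).2.2.2.2.1.any fun Dx => decide (innerC (E y.1.1) (b y.1.1) Dx y.2 A₂ = y.1.2))
    (h₂.comp c2) ?_
  have c3 : Poly (fun y : ((X × AS) × AS) × AS => y.1.1.1) :=
    Poly.fst (Poly.fst (Poly.fst Poly.id))
  refine Poly.any (l := fun y : ((X × AS) × AS) × AS => (E y.1.1.1).2.2.2.2.1) (p := fun y Dx =>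
    decide (innerC (E y.1.1.1) (b y.1.1.1) Dx y.1.2 y.2 = y.1.1.2)) (E5.comp c3) ?_
  have c4 : Poly (fun y : (((X × AS) × AS) × AS) × List Bool => y.1.1.1.1) :=
    Poly.fst (Poly.fst (Poly.fst (Poly.fst Poly.id)))
  have d1 : Poly (fun y : (((X × AS) × AS) × AS) × List Bool => y.1.1.1.2) :=
    Poly.snd (Poly.fst (Poly.fst (Poly.fst Poly.id)))
  have d2 : Poly (fun y : (((X × AS) × AS) × AS) × List Bool => y.1.1.2) :=
    Poly.snd (Poly.fst (Poly.fst Poly.id))
  have d3 : Poly (fun y : (((X × AS) × AS) × AS) × List Bool => y.1.2) :=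
    Poly.snd (Poly.fst Poly.id)
  have d4 : Poly (fun y : (((X × AS) × AS) × AS) × List Bool => y.2) := Poly.snd Poly.id
  exact Poly.decide_eq (poly_innerC (hE.comp c4) (hb.comp c4) d4 d2 d3) d1

theorem t_P1a : S_P1a :=
  poly_mergeT (Poly.fst Poly.id) (Poly.fst (Poly.snd Poly.id))
    (Poly.fst (Poly.snd (Poly.snd Poly.id))) (Poly.snd (Poly.snd (Poly.snd Poly.id)))

end Pool.Agent.J4H99.PF
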