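import Pool.Agent.J4H99.PF.P1a
import Pool.Agent.J4H23.PF.P2
import Pool.Agent.J4H23.PF.P3

/-! Job P4 of project PF: the final test is computable in polynomial time. -/

namespace Pool.Agent.J4H99.PF

open Pool.Agent.NPC Pool.Agent.J4H62.PF Pool.Agent.J4H23.PF

variable {X : Type} [TEnc X]

theorem poly_twinB {n : X → ℕ} {M : X → List Bool} {cs : X → List Cell} {c₁ c₂ : X → Cell}
    (hn : Poly n) (hM : Poly M) (hcs : Poly cs) (h₁ : Poly c₁) (h₂ : Poly c₂) :
    Poly (fun a => twinB (adjM (n a) (M a)) (cs a) (c₁ a) (c₂ a)) := by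
  unfold twinB
  refine Poly.and (Poly.not (Poly.decide_eq (Poly.fst h₁) (Poly.fst h₂))) ?_
  refine Poly.all (l := cs) (p := fun a c => decide (c.1 = (c₁ a).1) ||
    (decide (c.1 = (c₂ a).1) || decide (adjM (n a) (M a) c.1 (c₁ a).1 =
      adjM (n a) (M a) c.1 (c₂ a).1))) hcs ?_
  have c : Poly (fun y : X × Cell => y.1) := Poly.fst Poly.id
  have d : Poly (fun y : X × Cell => y.2.1) := Poly.fst (Poly.snd Poly.id)
  have g1 : Poly (fun a => (c₁ a).1) := Poly.fst h₁
  have g2 : Poly (fun a => (c₂ a).1) := Poly.fst h₂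
  exact Poly.or (Poly.decide_eq d (g1.comp c)) (Poly.or (Poly.decide_eq d (g2.comp c))
    (Poly.decide_eq (poly_adjM (hn.comp c) (hM.comp c) d (g1.comp c))
      (poly_adjM (hn.comp c) (hM.comp c) d (g2.comp c))))

theorem poly_twinPairs {n : X → ℕ} {M : X → List Bool} {cs : X → List Cell}
    (hn : Poly n) (hM : Poly M) (hcs : Poly cs) :
    Poly (fun a => twinPairs (adjM (n a) (M a)) (cs a)) := by
  unfold twinPairs
  refine Poly.flatMap (l := cs) (F := fun a c₁ =>
    ((cs a).filter fun c₂ => twinB (adjM (n a) (M a)) (cs a) c₁ c₂).map fun c₂ => (c₁, c₂)) hcs ?_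
  have c : Poly (fun y : X × Cell => y.1) := Poly.fst Poly.id
  have c' : Poly (fun y : (X × Cell) × Cell => y.1.1) := Poly.fst (Poly.fst Poly.id)
  have d1 : Poly (fun y : (X × Cell) × Cell => y.1.2) := Poly.snd (Poly.fst Poly.id)
  have d2 : Poly (fun y : (X × Cell) × Cell => y.2) := Poly.snd Poly.id
  refine NPC.Poly.map (l := fun y : X × Cell =>
    (cs y.1).filter fun c₂ => twinB (adjM (n y.1) (M y.1)) (cs y.1) y.2 c₂)
    (F := fun y c₂ => (y.2, c₂)) ?_ (Poly.pair d1 d2)
  exact Poly.filter (l := fun y : X × Cell => cs y.1)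
    (p := fun y c₂ => twinB (adjM (n y.1) (M y.1)) (cs y.1) y.2 c₂) (hcs.comp c)
    (poly_twinB (hn.comp c') (hM.comp c') (hcs.comp c') d1 d2)

theorem poly_stepC {E : X → Env} {n : X → ℕ} {M : X → List Bool} {cs : X → List Cell}
    (hE : Poly E) (hn : Poly n) (hM : Poly M) (hcs : Poly cs) :
    Poly (fun a => stepC (E a) (adjM (n a) (M a)) (cs a)) := by
  have c : Poly (fun y : X × (Cell × Cell) => y.1) := Poly.fst Poly.id
  have d : Poly (fun y : X × (Cell × Cell) => y.2.1.1) :=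
    Poly.fst (Poly.fst (Poly.snd Poly.id))
  have d' : Poly (fun y : X × (Cell × Cell) => y.2.2.1) :=
    Poly.fst (Poly.snd (Poly.snd Poly.id))
  have t : Poly (fun y : X × (Cell × Cell) => y.2.1.2) :=
    Poly.snd (Poly.fst (Poly.snd Poly.id))
  have t' : Poly (fun y : X × (Cell × Cell) => y.2.2.2) :=
    Poly.snd (Poly.snd (Poly.snd Poly.id))
  have k : Poly (fun y : (X × (Cell × Cell)) × Cell => y.1) := Poly.fst Poly.id
  have k2 : Poly (fun y : (X × (Cell × Cell)) × Cell => y.2.1) := Poly.fst (Poly.snd Poly.id)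
  have hf : Poly (fun y : X × (Cell × Cell) => (cs y.1).filter fun c' =>
      !(decide (c'.1 = y.2.1.1)) && !(decide (c'.1 = y.2.2.1))) :=
    Poly.filter (l := fun y : X × (Cell × Cell) => cs y.1)
      (p := fun y c' => !(decide (c'.1 = y.2.1.1)) && !(decide (c'.1 = y.2.2.1))) (hcs.comp c)
      (Poly.and (Poly.not (Poly.decide_eq k2 (d.comp k))) (Poly.not (Poly.decide_eq k2 (d'.comp k))))
  have hm : Poly (fun y : X × (Cell × Cell) =>
      mergeT (E y.1) (adjM (n y.1) (M y.1) y.2.1.1 y.2.2.1) y.2.1.2 y.2.2.2) :=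
    poly_mergeT (hE.comp c) (poly_adjM (hn.comp c) (hM.comp c) d d') t t'
  have := Poly.optCases (o := fun a => (twinPairs (adjM (n a) (M a)) (cs a)).head?)
    (g := cs) (h := fun a c => (c.1.1, mergeT (E a) (adjM (n a) (M a) c.1.1 c.2.1) c.1.2 c.2.2) ::
      (cs a).filter fun c' => !(decide (c'.1 = c.1.1)) && !(decide (c'.1 = c.2.1)))
    (Poly.head? (poly_twinPairs hn hM hcs)) hcs (Poly.cons (Poly.pair d hm) hf)
  refine this.congr fun a => ?_
  unfold stepC
  cases (twinPairs (adjM (n a) (M a)) (cs a)).head? <;> rfl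

/-! ### Size bounds -/

theorem sz_filter_le {β : Type} [TEnc β] (l : List β) (p : β → Bool) : sz (l.filter p) ≤ sz l := by
  induction l with
  | nil => simp
  | cons b l ih =>
    rw [List.filter_cons]
    split_ifs
    · rw [sz_list_cons, sz_list_cons]; omega
    · rw [sz_list_cons]; omega

/-- the bound kept by the loop -/
def Bd (N B : ℕ) (cs : List Cell) : Prop :=
  cs.length ≤ N ∧ ∀ c ∈ cs, sz c.1 ≤ B ∧ sz c.2 ≤ B

theorem Bd.sz_le {N B : ℕ} {cs : List Cell} (h : Bd N B cs) : sz cs ≤ N * (2 * B + 2) + 1 := by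
  have := sz_le_length_mul cs (2 * B + 1) (by
    rintro ⟨a, b⟩ hc
    have := h.2 _ hc
    simp only at this
    rw [sz_pair]
    omega)
  refine this.trans ?_
  have h2 : 2 * B + 1 + 1 = 2 * B + 2 := by ring
  rw [h2]
  exact Nat.add_le_add_right (Nat.mul_le_mul_right (2 * B + 2) h.1) 1

theorem Bd.step {N B : ℕ} {cs : List Cell} (E : Env) (adj : ℕ → ℕ → Bool)
    (hE : sz E.2.2.2.1 ≤ B) (h : Bd N B cs) : Bd N B (stepC E adj cs) := by
  unfold stepC
  cases hh : (twinPairs adj cs).head? with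
  | none => exact h
  | some c =>
    simp only
    have hcm : c ∈ twinPairs adj cs := List.mem_of_mem_head? hh
    obtain ⟨c₁, c₂⟩ := c
    simp only [twinPairs, List.mem_flatMap, List.mem_map, List.mem_filter] at hcm
    obtain ⟨d₁, hd₁, d₂, ⟨hd₂, -⟩, he⟩ := hcm
    obtain ⟨rfl, rfl⟩ : d₁ = c₁ ∧ d₂ = c₂ := by simpa using he
    constructor
    · rw [List.length_cons]
      have : (cs.filter fun c' => !(decide (c'.1 = d₁.1)) && !(decide (c'.1 = d₂.1))).length <
          cs.length := by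
        rw [List.length_filter_lt_length_iff_exists]
        exact ⟨d₁, hd₁, by simp⟩
      have h1 := h.1
      simp only
      omega
    · intro c hc
      rcases List.mem_cons.1 hc with rfl | hc
      · exact ⟨(h.2 _ hd₁).1, (sz_filter_le _ _).trans hE⟩
      · exact h.2 c (List.mem_of_mem_filter hc)

theorem Bd.iter {N B : ℕ} (E : Env) (adj : ℕ → ℕ → Bool) (hE : sz E.2.2.2.1 ≤ B) (k : ℕ) :
    ∀ {cs : List Cell}, Bd N B cs → Bd N B ((stepC E adj)^[k] cs) := by
  induction k with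
  | zero => exact fun h => h
  | succ k ih =>
    intro cs h
    rw [Function.iterate_succ_apply]
    exact ih (h.step E adj hE)

theorem Bd.start (E : Env) (adj : ℕ → ℕ → Bool) (S : List ℕ) (n B : ℕ) (hn : 4 * n + 1 ≤ B)
    (hE : sz E.2.2.1 + 2 ≤ B) : Bd (n + 1) B (cells₀ E adj S n) := by
  constructor
  · rw [cells₀, List.length_map]
    refine (List.length_filter_le _ _).trans ?_
    simp
  · intro c hc
    simp only [cells₀, List.mem_map, List.mem_filter, List.mem_range] at hc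
    obtain ⟨v, ⟨h1, -⟩, rfl⟩ := hc
    constructor
    · have h2 := sz_nat_le v
      have h3 := NPC.Poly.size_le_self v
      simp only
      omega
    · simp only [base, sz_list_cons, sz_list_nil]
      have := sz_filter_le E.2.2.1 (fun α => decide (atp adj E.2.1 (ztup S v) = α))
      omega

/-! ### The loop and the final test -/

theorem poly_cells₀ (h1c : S_P1c) {E : X → Env} {l : X → List Unit} {M : X → List Bool}
    {S : X → List ℕ} (hE : Poly E) (hl : Poly l) (hM : Poly M) (hS : Poly S) :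
    Poly (fun a => cells₀ (E a) (adjM (l a).length (M a)) (S a) (l a).length) := by
  unfold cells₀
  have c : Poly (fun y : X × ℕ => y.1) := Poly.fst Poly.id
  have d : Poly (fun y : X × ℕ => y.2) := Poly.snd Poly.id
  have hr : Poly (fun a => List.range ((l a).length + 1)) :=
    (Poly.range_length (Poly.cons (NPC.Poly.const (α := X) ()) hl)).congr fun a => by
      rw [List.length_cons]
  have hf : Poly (fun a => (List.range ((l a).length + 1)).filter fun v => !(decide (v ∈ S a))) :=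
    Poly.filter (l := fun a => List.range ((l a).length + 1)) (p := fun a v => !(decide (v ∈ S a)))
      hr (Poly.not (Poly.decide_mem d (hS.comp c)))
  refine NPC.Poly.map (F := fun a v => (v, base (E a) (adjM (l a).length (M a)) (S a) v)) hf ?_
  refine Poly.pair d ?_
  exact Poly.comp (g := fun x : Env × (ℕ × List Bool) × List ℕ × ℕ =>
    base x.1 (adjM x.2.1.1 x.2.1.2) x.2.2.1 x.2.2.2) (f := fun y : X × ℕ =>
    (E y.1, ((l y.1).length, M y.1), S y.1, y.2)) h1c
    (Poly.pair (hE.comp c) (Poly.pair (Poly.pair (Poly.length (hl.comp c)) (hM.comp c))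
      (Poly.pair (hS.comp c) d)))

/-- the input of the final test -/
abbrev Y4 : Type := Env × (List Unit × List Bool) × List ℕ × List ℕ × List (List (ℕ × ℕ))

theorem poly_cellsE (h1c : S_P1c) : Poly (fun x : Y4 =>
    cellsE x.1 (adjM x.2.1.1.length x.2.1.2) x.2.2.1 x.2.1.1.length) := by
  have gE : Poly (fun x : Y4 => x.1) := Poly.fst Poly.id
  have gl : Poly (fun x : Y4 => x.2.1.1) := Poly.fst (Poly.fst (Poly.snd Poly.id))
  have gM : Poly (fun x : Y4 => x.2.1.2) := Poly.snd (Poly.fst (Poly.snd Poly.id))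
  have gS : Poly (fun x : Y4 => x.2.2.1) := Poly.fst (Poly.snd (Poly.snd Poly.id))
  have gn : Poly (fun x : Y4 => x.2.1.1.length) := Poly.length gl
  have hs := poly_cells₀ h1c gE gl gM gS
  have c : Poly (fun y : Y4 × List Cell => y.1) := Poly.fst Poly.id
  have d : Poly (fun y : Y4 × List Cell => y.2) := Poly.snd Poly.id
  have hF : Poly (fun y : Y4 × List Cell =>
      stepC y.1.1 (adjM y.1.2.1.1.length y.1.2.1.2) y.2) :=
    poly_stepC (gE.comp c) (gn.comp c) (gM.comp c) d
  have hl : Poly (fun x : Y4 => () :: x.2.1.1) := Poly.cons (NPC.Poly.const (α := Y4) ()) gl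
  refine (NPC.Poly.iterLen (l := fun x : Y4 => () :: x.2.1.1)
    (s := fun x : Y4 => cells₀ x.1 (adjM x.2.1.1.length x.2.1.2) x.2.2.1 x.2.1.1.length)
    (F := fun (x : Y4) cs => stepC x.1 (adjM x.2.1.1.length x.2.1.2) cs) hl hs hF
    (Polynomial.X * (Polynomial.C 8 * Polynomial.X + Polynomial.C 8) + Polynomial.C 1)
    ?_).congr fun x => rfl
  rintro ⟨E, ⟨l, M⟩, S, R, FS⟩ k -
  obtain ⟨e1, e2, U, PU, e5, e6⟩ := E
  simp only
  have hsz : sz (((e1, e2, U, PU, e5, e6), (l, M), S, R, FS) : Y4) =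
      sz e1 + (sz e2 + (sz U + (sz PU + (sz e5 + sz e6 + 1) + 1) + 1) + 1) + 1 +
        (sz l + sz M + 1 + (sz S + (sz R + sz FS + 1) + 1) + 1) + 1 := by
    simp only [sz_pair]
  set A := sz (((e1, e2, U, PU, e5, e6), (l, M), S, R, FS) : Y4) with hA
  have hl' := length_lt_sz l
  have hb := Bd.start ((e1, e2, U, PU, e5, e6) : Env) (adjM l.length M) S l.length (4 * A + 3)
    (by omega) (by change sz U + 2 ≤ _; omega)
  have hb2 := (Bd.iter ((e1, e2, U, PU, e5, e6) : Env) (adjM l.length M)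
    (show sz PU ≤ 4 * A + 3 by omega) k hb).sz_le
  refine hb2.trans ?_
  simp only [Polynomial.eval_add, Polynomial.eval_mul, Polynomial.eval_X, Polynomial.eval_C]
  have h1 : l.length + 1 ≤ A := by omega
  have h2 : 2 * (4 * A + 3) + 2 = 8 * A + 8 := by ring
  rw [h2]
  exact Nat.add_le_add_right (Nat.mul_le_mul_right _ h1) 1

theorem t_P4 (h1c : S_P1c) : S_P4 := by
  unfold S_P4 fin
  change Poly (fun x : Y4 => (cellsE x.1 (adjM x.2.1.1.length x.2.1.2) x.2.2.1 x.2.1.1.length).any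
    fun c => c.2.any fun A => x.2.2.2.2.any fun F => A.all fun α => psi x.1.2.1 x.2.2.2.1 F α)
  have gQ : Poly (fun x : Y4 => x.1.2.1) := Poly.fst (Poly.snd (Poly.fst Poly.id))
  have gR : Poly (fun x : Y4 => x.2.2.2.1) := Poly.fst (Poly.snd (Poly.snd (Poly.snd Poly.id)))
  have gF : Poly (fun x : Y4 => x.2.2.2.2) := Poly.snd (Poly.snd (Poly.snd (Poly.snd Poly.id)))
  refine Poly.any (p := fun x c => c.2.any fun A => x.2.2.2.2.any fun F =>
    A.all fun α => psi x.1.2.1 x.2.2.2.1 F α) (poly_cellsE h1c) ?_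
  refine Poly.any (l := fun y : Y4 × Cell => y.2.2) (p := fun y A => y.1.2.2.2.2.any fun F =>
    A.all fun α => psi y.1.1.2.1 y.1.2.2.2.1 F α) (Poly.snd (Poly.snd Poly.id)) ?_
  have c2 : Poly (fun y : (Y4 × Cell) × AS => y.1.1) := Poly.fst (Poly.fst Poly.id)
  refine Poly.any (l := fun y : (Y4 × Cell) × AS => y.1.1.2.2.2.2) (p := fun y F =>
    y.2.all fun α => psi y.1.1.1.2.1 y.1.1.2.2.2.1 F α) (gF.comp c2) ?_
  refine Poly.all (l := fun y : ((Y4 × Cell) × AS) × List (ℕ × ℕ) => y.1.2) (p := fun y α =>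
    psi y.1.1.1.1.2.1 y.1.1.1.2.2.2.1 y.2 α) (Poly.snd (Poly.fst Poly.id)) ?_
  have c4 : Poly (fun y : (((Y4 × Cell) × AS) × List (ℕ × ℕ)) × List Bool => y.1.1.1.1) :=
    Poly.fst (Poly.fst (Poly.fst (Poly.fst Poly.id)))
  have d1 : Poly (fun y : (((Y4 × Cell) × AS) × List (ℕ × ℕ)) × List Bool => y.1.2) :=
    Poly.snd (Poly.fst Poly.id)
  have d2 : Poly (fun y : (((Y4 × Cell) × AS) × List (ℕ × ℕ)) × List Bool => y.2) :=
    Poly.snd Poly.id
  exact Poly.comp (g := fun x : List Qu × List ℕ × List (ℕ × ℕ) × List Bool =>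
    psi x.1 x.2.1 x.2.2.1 x.2.2.2) (f := fun y : (((Y4 × Cell) × AS) × List (ℕ × ℕ)) × List Bool =>
    (y.1.1.1.1.1.2.1, y.1.1.1.1.2.2.2.1, y.1.2, y.2)) t_P2
    (Poly.pair (gQ.comp c4) (Poly.pair (gR.comp c4) (Poly.pair d1 d2)))

end Pool.Agent.J4H99.PF
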